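import Pool.Agent.helper74.FD.SpecF

/-!
Row fd:HMU (the harmonic measure of an interval).
-/

set_option autoImplicit false

open MeasureTheory Filter Set

namespace Pool.Agent.FD

private lemma HMU_re (A B : ℝ) (z : ℂ) :
    (qh A B z).re = ((z - B).arg - (z - A).arg) / Real.pi := by
  unfold qh
  rw [mul_comm (Real.pi : ℂ) Complex.I, div_mul_eq_div_div, Complex.div_I, Complex.div_ofReal_re,
    Complex.neg_re, Complex.mul_I_re, neg_neg, Complex.sub_im, Complex.log_im, Complex.log_im]

private lemma HMU_ang (A B : ℝ) (z : ℂ) (hAB : A < B) (hz : 0 < z.im) :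
    let θ := (z - B).arg - (z - A).arg
    0 < ‖z - A‖ ∧ 0 < ‖z - B‖ ∧ 0 < θ ∧ θ < Real.pi ∧
      Real.sin θ = (B - A) * z.im / (‖z - A‖ * ‖z - B‖) ∧
      Real.cos θ = ((z.re - A) * (z.re - B) + z.im ^ 2) / (‖z - A‖ * ‖z - B‖) := by
  intro θ
  have hiA : (z - A).im = z.im := by simp
  have hiB : (z - B).im = z.im := by simp
  have hrA : (z - A).re = z.re - A := by simp
  have hrB : (z - B).re = z.re - B := by simp
  have hA0 : z - A ≠ 0 := by
    intro h
    rw [h] at hiA
    simp at hiA
    linarith
  have hB0 : z - B ≠ 0 := by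
    intro h
    rw [h] at hiB
    simp at hiB
    linarith
  have hA : 0 < ‖z - A‖ := norm_pos_iff.mpr hA0
  have hB : 0 < ‖z - B‖ := norm_pos_iff.mpr hB0
  have a1 : 0 ≤ (z - A).arg := Complex.arg_nonneg_iff.mpr (by rw [hiA]; exact hz.le)
  have b1 : 0 ≤ (z - B).arg := Complex.arg_nonneg_iff.mpr (by rw [hiB]; exact hz.le)
  have a2 : (z - A).arg < Real.pi := Complex.arg_lt_pi_iff.mpr (Or.inr (by rw [hiA]; exact hz.ne'))
  have b2 : (z - B).arg < Real.pi := Complex.arg_lt_pi_iff.mpr (Or.inr (by rw [hiB]; exact hz.ne'))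
  have hsin : Real.sin θ = (B - A) * z.im / (‖z - A‖ * ‖z - B‖) := by
    show Real.sin ((z - B).arg - (z - A).arg) = _
    rw [Real.sin_sub, Complex.sin_arg, Complex.sin_arg, Complex.cos_arg hA0, Complex.cos_arg hB0,
      hiA, hiB, hrA, hrB]
    field_simp
    ring
  have hcos : Real.cos θ = ((z.re - A) * (z.re - B) + z.im ^ 2) / (‖z - A‖ * ‖z - B‖) := by
    show Real.cos ((z - B).arg - (z - A).arg) = _
    rw [Real.cos_sub, Complex.sin_arg, Complex.sin_arg, Complex.cos_arg hA0, Complex.cos_arg hB0,
      hiA, hiB, hrA, hrB]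
    field_simp
  have hspos : 0 < Real.sin θ := by
    rw [hsin]
    have : 0 < B - A := by linarith
    positivity
  have hlo : -Real.pi < θ := by
    show -Real.pi < (z - B).arg - (z - A).arg
    linarith
  have hhi : θ < Real.pi := by
    show (z - B).arg - (z - A).arg < Real.pi
    linarith
  have h0 : 0 < θ := by
    by_contra h
    push Not at h
    have := Real.sin_nonpos_of_nonpos_of_neg_pi_le h hlo.le
    linarith
  exact ⟨hA, hB, h0, hhi, hsin, hcos⟩

theorem HMU_proof : HMU_stmt := by
  intro A B z hAB hz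
  obtain ⟨hA, hB, h0, hpi, hsin, hcos⟩ := HMU_ang A B z hAB hz
  have hre := HMU_re A B z
  set θ := (z - B).arg - (z - A).arg with hθ
  have hpp := Real.pi_pos
  refine ⟨?_, ?_, ?_, ?_, ?_⟩
  · unfold qh
    have hA' : z - A ∈ Complex.slitPlane := by
      right
      simp only [Complex.sub_im, Complex.ofReal_im, sub_zero]
      exact hz.ne'
    have hB' : z - B ∈ Complex.slitPlane := by
      right
      simp only [Complex.sub_im, Complex.ofReal_im, sub_zero]
      exact hz.ne'
    have d1 : DifferentiableAt ℂ (fun w : ℂ => Complex.log (w - B)) z :=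
      (differentiableAt_id.sub_const (B : ℂ)).clog hB'
    have d2 : DifferentiableAt ℂ (fun w : ℂ => Complex.log (w - A)) z :=
      (differentiableAt_id.sub_const (A : ℂ)).clog hA'
    exact (d1.sub d2).div_const _
  · rw [hre]
    positivity
  · rw [hre, div_le_one hpp]
    exact hpi.le
  · have h2 : (B - A) * z.im / (Real.pi * (‖z - A‖ * ‖z - B‖)) = Real.sin θ / Real.pi := by
      rw [hsin]
      field_simp
    rw [hre, h2]
    exact div_le_div_of_nonneg_right (Real.sin_le h0.le) hpp.le
  · intro hout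
    have hc : 0 < Real.cos θ := by
      rw [hcos]
      apply div_pos _ (mul_pos hA hB)
      have : 0 ≤ (z.re - A) * (z.re - B) := by
        rcases hout with h | h
        · nlinarith
        · nlinarith
      positivity
    have hlt : θ < Real.pi / 2 := by
      by_contra h
      push Not at h
      have := Real.cos_nonpos_of_pi_div_two_le_of_le h (by linarith)
      linarith
    have h1 := Real.mul_le_sin h0.le hlt.le
    rw [hre]
    have h2 : (B - A) * z.im / (2 * (‖z - A‖ * ‖z - B‖)) = Real.sin θ / 2 := by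
      rw [hsin]
      field_simp
    rw [h2]
    have h3 : 2 / Real.pi * θ = 2 * (θ / Real.pi) := by ring
    rw [h3] at h1
    linarith

end Pool.Agent.FD
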