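import Pool.Agent.helper74.FD.SpecF

/-!
Row fd:LWQ (lower bound for the sum of the harmonic measures at height 256).
-/

set_option autoImplicit false

open MeasureTheory Filter Set

namespace Pool.Agent.FD

private lemma LWQ_re (n : ℕ) (c ρ : ℕ → ℝ) (z : ℂ) :
    (sq n c ρ z).re = ∑ i ∈ Finset.range n, ρ i * (qh (c i - ρ i / 16) (c i + ρ i / 16) z).re := by
  unfold sq
  rw [Complex.re_sum]
  apply Finset.sum_congr rfl
  intro i _
  rw [Complex.re_ofReal_mul]

private lemma LWQ_norm (x a K : ℝ) (h1 : |x| + 256 ≤ K) (h2 : 0 ≤ a) (h3 : a ≤ 2 * K) :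
    ‖(x : ℂ) + 256 * Complex.I - (a : ℂ)‖ ≤ 3 * K := by
  have e : (x : ℂ) + 256 * Complex.I - (a : ℂ) = ((x - a : ℝ) : ℂ) + 256 * Complex.I := by
    push_cast; ring
  rw [e]
  refine (norm_add_le _ _).trans ?_
  rw [Complex.norm_real, Real.norm_eq_abs]
  have h4 : ‖(256 : ℂ) * Complex.I‖ = 256 := by simp
  rw [h4]
  have h5 : |x - a| ≤ |x| + |a| := abs_sub x a
  rw [abs_of_nonneg h2] at h5
  linarith

theorem LWQ_proof (hHMU : HMU_stmt) : LWQ_stmt := by
  intro ν k n c ρ x hν hν1 hG hx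
  rw [LWQ_re]
  have hb : ∀ i ∈ Finset.range n, ν ^ 2 * (3 / 20) ≤
      ρ i * (qh (c i - ρ i / 16) (c i + ρ i / 16) (x + 256 * Complex.I)).re := by
    intro i hi
    rw [Finset.mem_range] at hi
    set K : ℝ := 2 ^ (k + 2 * i) with hK
    have hKk : (2 : ℝ) ^ k ≤ K := pow_le_pow_right₀ (by norm_num) (by omega)
    have hK1 : 1 ≤ K := one_le_pow₀ (by norm_num)
    have hρe : ρ i = ν * K / 2 := hG.size i hi
    have hρ : 0 < ρ i := by rw [hρe]; positivity
    have hl : K ≤ c i - ρ i := hG.left i hi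
    have hr : c i + ρ i ≤ K * 2 := by
      have := hG.right i hi
      rw [pow_succ] at this
      exact this
    have him : ((x : ℂ) + 256 * Complex.I).im = 256 := by simp
    obtain ⟨-, -, -, h4, -⟩ := hHMU (c i - ρ i / 16) (c i + ρ i / 16) (x + 256 * Complex.I) (by linarith)
      (by rw [him]; norm_num)
    rw [him] at h4
    have nA := LWQ_norm x (c i - ρ i / 16) K (by linarith) (by linarith) (by linarith)
    have nB := LWQ_norm x (c i + ρ i / 16) K (by linarith) (by linarith) (by linarith)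
    have posA : 0 < ‖(x : ℂ) + 256 * Complex.I - ((c i - ρ i / 16 : ℝ) : ℂ)‖ := by
      rw [norm_pos_iff]
      intro h
      have := congrArg Complex.im h
      simp at this
    have posB : 0 < ‖(x : ℂ) + 256 * Complex.I - ((c i + ρ i / 16 : ℝ) : ℂ)‖ := by
      rw [norm_pos_iff]
      intro h
      have := congrArg Complex.im h
      simp at this
    have hprod : ‖(x : ℂ) + 256 * Complex.I - ((c i - ρ i / 16 : ℝ) : ℂ)‖ * ‖(x : ℂ) + 256 * Complex.I - ((c i + ρ i / 16 : ℝ) : ℂ)‖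
        ≤ 9 * K ^ 2 := by
      calc _ ≤ (3 * K) * (3 * K) := mul_le_mul nA nB posB.le (by positivity)
        _ = 9 * K ^ 2 := by ring
    have hpi : Real.pi < 3.15 := Real.pi_lt_d2
    have hpp := Real.pi_pos
    have h5 : (c i + ρ i / 16 - (c i - ρ i / 16)) * 256 / (3.15 * (9 * K ^ 2)) ≤
        (c i + ρ i / 16 - (c i - ρ i / 16)) * 256 / (Real.pi * (‖(x : ℂ) + 256 * Complex.I - ((c i - ρ i / 16 : ℝ) : ℂ)‖ * ‖(x : ℂ) + 256 * Complex.I - ((c i + ρ i / 16 : ℝ) : ℂ)‖)) := by
      apply div_le_div_of_nonneg_left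
      · have : c i + ρ i / 16 - (c i - ρ i / 16) = ρ i / 8 := by ring
        rw [this]; positivity
      · positivity
      · exact mul_le_mul hpi.le hprod (by positivity) (by norm_num)
    have h6 := h5.trans h4
    have h7 := mul_le_mul_of_nonneg_left h6 hρ.le
    refine le_trans ?_ h7
    have h8 : ρ i * ((c i + ρ i / 16 - (c i - ρ i / 16)) * 256 / (3.15 * (9 * K ^ 2))) = ν ^ 2 * (8 / (3.15 * 9)) := by
      rw [show c i + ρ i / 16 - (c i - ρ i / 16) = ρ i / 8 by ring, hρe]
      field_simp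
      ring
    rw [h8]
    have : (3 / 20 : ℝ) ≤ 8 / (3.15 * 9) := by norm_num
    exact mul_le_mul_of_nonneg_left this (by positivity)
  have := Finset.sum_le_sum hb
  rw [Finset.sum_const, Finset.card_range, nsmul_eq_mul] at this
  linarith

end Pool.Agent.FD
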