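import Pool.Agent.helper74.FD.SpecF

/-!
Row fd:PHL (Phragmen-Lindelof on a half plane, bounded case).
-/

set_option autoImplicit false

open MeasureTheory Filter Set

namespace Pool.Agent.FD

theorem PHL_proof : PHL_stmt := by
  intro G C M hd hb hM z hz
  -- F w = G (i w + i) on Re w ≥ 0
  set F : ℂ → ℂ := fun w => G (Complex.I * w + Complex.I) with hF
  have him : ∀ w : ℂ, (Complex.I * w + Complex.I).im = w.re + 1 := by
    intro w; simp [Complex.add_im, Complex.mul_im]
  have hdF : ∀ w : ℂ, 0 ≤ w.re → DifferentiableAt ℂ F w := by
    intro w hw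
    have h1 : DifferentiableAt ℂ G (Complex.I * w + Complex.I) := hd _ (by rw [him]; linarith)
    have h2 : DifferentiableAt ℂ (fun w : ℂ => Complex.I * w + Complex.I) w := by fun_prop
    exact h1.comp w h2
  have hdc : DiffContOnCl ℂ F {z | 0 < z.re} := by
    constructor
    · intro w hw
      exact (hdF w (le_of_lt hw)).differentiableWithinAt
    · rw [Complex.closure_setOfPred_lt_re]
      intro w hw
      exact (hdF w hw).continuousAt.continuousWithinAt
  have hbF : ∀ w : ℂ, 0 ≤ w.re → ‖F w‖ ≤ C := by
    intro w hw
    exact hb _ (by rw [him]; linarith)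
  have key := PhragmenLindelof.right_half_plane_of_bounded_on_real (f := F) (C := M)
    (z := -Complex.I * z - 1) hdc
    (by
      refine ⟨0, by norm_num, 0, ?_⟩
      apply Asymptotics.IsBigO.of_bound C
      rw [Filter.eventually_inf_principal]
      refine Filter.Eventually.of_forall ?_
      intro w hw
      have := hbF w (le_of_lt hw)
      simpa using this)
    (by
      refine ⟨C, ?_⟩
      rw [Filter.eventually_map]
      filter_upwards [Filter.eventually_ge_atTop (0 : ℝ)] with x hx
      exact hbF _ (by simpa using hx))
    (by
      intro x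
      have h1 : Complex.I * ((x : ℂ) * Complex.I) + Complex.I = ((-x : ℝ) : ℂ) + Complex.I := by
        push_cast
        have := Complex.I_mul_I
        linear_combination (x : ℂ) * this
      show ‖G (Complex.I * ((x : ℂ) * Complex.I) + Complex.I)‖ ≤ M
      rw [h1]
      exact hM (-x))
  -- w = -i z - 1
  have h2 := key (by
    simp [Complex.sub_re, Complex.mul_re]; linarith)
  have h3 : Complex.I * (-Complex.I * z - 1) + Complex.I = z := by
    have := Complex.I_mul_I
    linear_combination (-z) * this
  have h4 : F (-Complex.I * z - 1) = G z := by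
    show G (Complex.I * (-Complex.I * z - 1) + Complex.I) = G z
    rw [h3]
  rw [h4] at h2
  exact h2

end Pool.Agent.FD
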