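import Pool.Agent.helper74.FD.SpecF

/-!
Row fd:SMQ (sums of harmonic measures).
-/

set_option autoImplicit false

open MeasureTheory Filter Set

namespace Pool.Agent.FD

private lemma SMQ_re (n : ℕ) (c ρ : ℕ → ℝ) (z : ℂ) :
    (sq n c ρ z).re = ∑ i ∈ Finset.range n, ρ i * (qh (c i - ρ i / 16) (c i + ρ i / 16) z).re := by
  unfold sq
  rw [Complex.re_sum]
  apply Finset.sum_congr rfl
  intro i _
  rw [Complex.re_ofReal_mul]

private lemma SMQ_K (k i : ℕ) : (1 : ℝ) ≤ 2 ^ (k + 2 * i) := one_le_pow₀ (by norm_num)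

/-- the bound outside -/
private lemma SMQ_out (hHMU : HMU_stmt) (c ρ x d : ℝ) (hρ : 0 < ρ) (hd : 0 < d)
    (h : x + d ≤ c - ρ / 16 ∨ c + ρ / 16 + d ≤ x) :
    ρ * (qh (c - ρ / 16) (c + ρ / 16) (x + Complex.I)).re ≤ ρ ^ 2 / (16 * d ^ 2) := by
  have hz : 0 < ((x : ℂ) + Complex.I).im := by simp
  have him : ((x : ℂ) + Complex.I).im = 1 := by simp
  have hre : ((x : ℂ) + Complex.I).re = x := by simp
  have hAB : c - ρ / 16 < c + ρ / 16 := by linarith
  obtain ⟨-, -, -, -, h5⟩ := hHMU (c - ρ / 16) (c + ρ / 16) (x + Complex.I) hAB hz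
  have h6 := h5 (by
    rw [hre]
    rcases h with h | h
    · left; linarith
    · right; linarith)
  rw [him] at h6
  have nA : d ≤ ‖(x : ℂ) + Complex.I - ((c - ρ / 16 : ℝ) : ℂ)‖ := by
    have := Complex.abs_re_le_norm ((x : ℂ) + Complex.I - ((c - ρ / 16 : ℝ) : ℂ))
    have e : ((x : ℂ) + Complex.I - ((c - ρ / 16 : ℝ) : ℂ)).re = x - (c - ρ / 16) := by
      rw [Complex.sub_re, hre, Complex.ofReal_re]
    rw [e] at this
    refine le_trans ?_ this
    rcases h with h | h
    · rw [abs_sub_comm]; exact le_trans (by linarith) (le_abs_self _)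
    · exact le_trans (by linarith) (le_abs_self _)
  have nB : d ≤ ‖(x : ℂ) + Complex.I - ((c + ρ / 16 : ℝ) : ℂ)‖ := by
    have := Complex.abs_re_le_norm ((x : ℂ) + Complex.I - ((c + ρ / 16 : ℝ) : ℂ))
    have e : ((x : ℂ) + Complex.I - ((c + ρ / 16 : ℝ) : ℂ)).re = x - (c + ρ / 16) := by
      rw [Complex.sub_re, hre, Complex.ofReal_re]
    rw [e] at this
    refine le_trans ?_ this
    rcases h with h | h
    · rw [abs_sub_comm]; exact le_trans (by linarith) (le_abs_self _)
    · exact le_trans (by linarith) (le_abs_self _)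
  have h7 : d ^ 2 ≤ ‖(x : ℂ) + Complex.I - ((c - ρ / 16 : ℝ) : ℂ)‖ * ‖(x : ℂ) + Complex.I - ((c + ρ / 16 : ℝ) : ℂ)‖ := by
    rw [pow_two]
    exact mul_le_mul nA nB hd.le (by positivity)
  have h8 : (c + ρ / 16 - (c - ρ / 16)) * 1 / (2 * (‖(x : ℂ) + Complex.I - ((c - ρ / 16 : ℝ) : ℂ)‖ * ‖(x : ℂ) + Complex.I - ((c + ρ / 16 : ℝ) : ℂ)‖))
      ≤ ρ / (16 * d ^ 2) := by
    have e1 : (c + ρ / 16 - (c - ρ / 16)) * 1 = ρ / 8 := by ring
    rw [e1]
    have e2 : ρ / (16 * d ^ 2) = (ρ / 8) / (2 * d ^ 2) := by field_simp; norm_num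
    rw [e2]
    apply div_le_div_of_nonneg_left (by positivity) (by positivity)
    linarith
  have h9 := h6.trans h8
  calc ρ * (qh (c - ρ / 16) (c + ρ / 16) (x + Complex.I)).re ≤ ρ * (ρ / (16 * d ^ 2)) :=
        mul_le_mul_of_nonneg_left h9 hρ.le
    _ = ρ ^ 2 / (16 * d ^ 2) := by ring

private lemma SMQ_right (k : ℕ) (x : ℝ) (N : ℕ) :
    (∑ i ∈ Finset.range N, (if 4 * (2 : ℝ) ^ (k + 2 * i) ≤ x then ((2 : ℝ) ^ (k + 2 * i)) ^ 2 else 0)) ≤ ((2 : ℝ) ^ (k + 2 * N)) ^ 2 / 15 ∧
    (∑ i ∈ Finset.range N, (if 4 * (2 : ℝ) ^ (k + 2 * i) ≤ x then ((2 : ℝ) ^ (k + 2 * i)) ^ 2 else 0)) ≤ x ^ 2 / 15 := by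
  induction N with
  | zero => simp only [Finset.range_zero, Finset.sum_empty]; constructor <;> positivity
  | succ N ih =>
    obtain ⟨i1, i2⟩ := ih
    have hK := SMQ_K k N
    have e : (2 : ℝ) ^ (k + 2 * (N + 1)) = 4 * 2 ^ (k + 2 * N) := by
      rw [show k + 2 * (N + 1) = (k + 2 * N) + 2 by ring, pow_add]; ring
    rw [Finset.sum_range_succ, e]
    split_ifs with h
    · constructor
      · nlinarith
      · nlinarith
    · constructor
      · nlinarith
      · linarith

theorem SMQ_proof (hHMU : HMU_stmt) : SMQ_stmt := by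
  classical
  intro ν k n c ρ x hν hν1 hG
  rw [SMQ_re]
  have hz : 0 < ((x : ℂ) + Complex.I).im := by simp
  have hρ : ∀ i < n, 0 < ρ i := by
    intro i hi
    rw [hG.size i hi]
    have := SMQ_K k i
    positivity
  -- the terms
  set T : ℕ → ℝ := fun i => ρ i * (qh (c i - ρ i / 16) (c i + ρ i / 16) (x + Complex.I)).re with hT
  have hleft : ∀ i < n, x ≤ 2 ^ (k + 2 * i) / 2 → T i ≤ ν ^ 2 / 16 := by
    intro i hi hx
    have hK := SMQ_K k i
    have h0 := hρ i hi
    have h1 := SMQ_out hHMU (c i) (ρ i) x (2 ^ (k + 2 * i) / 2) h0 (by positivity)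
      (Or.inl (by have := hG.left i hi; linarith))
    refine h1.trans (le_of_eq ?_)
    rw [hG.size i hi]
    field_simp
  have hright : ∀ i < n, 4 * 2 ^ (k + 2 * i) ≤ x → T i ≤ ν ^ 2 / (16 * x ^ 2) * ((2 : ℝ) ^ (k + 2 * i)) ^ 2 := by
    intro i hi hx
    have hK := SMQ_K k i
    have h0 := hρ i hi
    have hx0 : 0 < x := by linarith
    have h1 := SMQ_out hHMU (c i) (ρ i) x (x / 2) h0 (by positivity)
      (Or.inr (by
        have := hG.right i hi
        rw [pow_succ] at this
        linarith))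
    refine h1.trans (le_of_eq ?_)
    rw [hG.size i hi]
    field_simp
  have hmid : ∀ i < n, ρ i / 8 < |x - c i| → T i ≤ 16 := by
    intro i hi hx
    have h0 := hρ i hi
    have h1 := SMQ_out hHMU (c i) (ρ i) x (ρ i / 16) h0 (by positivity)
      (by
        rcases lt_abs.mp hx with h | h
        · right; linarith
        · left; linarith)
    refine h1.trans (le_of_eq ?_)
    field_simp
  have hany : ∀ i < n, T i ≤ ρ i := by
    intro i hi
    have h0 := hρ i hi
    obtain ⟨-, -, h3, -, -⟩ := hHMU (c i - ρ i / 16) (c i + ρ i / 16) (x + Complex.I) (by linarith) hz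
    have := mul_le_mul_of_nonneg_left h3 h0.le
    rw [mul_one] at this
    exact this
  -- the middle set
  set M : Finset ℕ := (Finset.range n).filter (fun i => (2 : ℝ) ^ (k + 2 * i) / 2 < x ∧ x < 4 * 2 ^ (k + 2 * i)) with hM
  have hmono : ∀ i j : ℕ, i < j → 4 * (2 : ℝ) ^ (k + 2 * i) ≤ 2 ^ (k + 2 * j) := by
    intro i j hij
    have e : 4 * (2 : ℝ) ^ (k + 2 * i) = 2 ^ (k + 2 * i + 2) := by rw [pow_add]; ring
    rw [e]
    exact pow_le_pow_right₀ (by norm_num) (by omega)
  have hsum : ∑ i ∈ Finset.range n, T i ≤ n * ν ^ 2 / 16 + 1 + ∑ i ∈ M, T i := by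
    have hb : ∀ i ∈ Finset.range n, T i ≤ ν ^ 2 / 16 +
        ν ^ 2 / (16 * x ^ 2) * (if 4 * (2 : ℝ) ^ (k + 2 * i) ≤ x then ((2 : ℝ) ^ (k + 2 * i)) ^ 2 else 0) +
        (if ((2 : ℝ) ^ (k + 2 * i) / 2 < x ∧ x < 4 * 2 ^ (k + 2 * i)) then T i else 0) := by
      intro i hi
      rw [Finset.mem_range] at hi
      have p1 : 0 ≤ ν ^ 2 / 16 := by positivity
      have p2 : 0 ≤ ν ^ 2 / (16 * x ^ 2) := by positivity
      have hK := SMQ_K k i
      by_cases c1 : x ≤ 2 ^ (k + 2 * i) / 2
      · have n1 : ¬ ((2 : ℝ) ^ (k + 2 * i) / 2 < x ∧ x < 4 * 2 ^ (k + 2 * i)) := by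
          intro h; linarith [h.1]
        have n2 : ¬ (4 * (2 : ℝ) ^ (k + 2 * i) ≤ x) := by
          intro h; linarith
        rw [if_neg n1, if_neg n2]
        have := hleft i hi c1
        linarith
      · push Not at c1
        by_cases c2 : 4 * (2 : ℝ) ^ (k + 2 * i) ≤ x
        · have n1 : ¬ ((2 : ℝ) ^ (k + 2 * i) / 2 < x ∧ x < 4 * 2 ^ (k + 2 * i)) := by
            intro h; linarith [h.2]
          rw [if_neg n1, if_pos c2]
          have := hright i hi c2
          linarith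
        · push Not at c2
          rw [if_neg (not_le.mpr c2), if_pos ⟨c1, c2⟩]
          linarith
    refine (Finset.sum_le_sum hb).trans ?_
    have hMe : ∑ i ∈ Finset.range n, (if ((2 : ℝ) ^ (k + 2 * i) / 2 < x ∧ x < 4 * 2 ^ (k + 2 * i)) then T i else 0) = ∑ i ∈ M, T i := by
      rw [hM, Finset.sum_filter]
    rw [Finset.sum_add_distrib, Finset.sum_add_distrib, ← Finset.mul_sum, hMe]
    have h1 : ∑ _i ∈ Finset.range n, ν ^ 2 / 16 = n * ν ^ 2 / 16 := by
      rw [Finset.sum_const, Finset.card_range, nsmul_eq_mul]; ring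
    rw [h1]
    have h2 : ν ^ 2 / (16 * x ^ 2) * (∑ i ∈ Finset.range n, (if 4 * (2 : ℝ) ^ (k + 2 * i) ≤ x then ((2 : ℝ) ^ (k + 2 * i)) ^ 2 else 0)) ≤ 1 := by
      have h3 := (SMQ_right k x n).2
      have p2 : 0 ≤ ν ^ 2 / (16 * x ^ 2) := by positivity
      refine (mul_le_mul_of_nonneg_left h3 p2).trans ?_
      by_cases hx : x = 0
      · rw [hx]; norm_num
      · have : ν ^ 2 / (16 * x ^ 2) * (x ^ 2 / 15) = ν ^ 2 / 240 := by
          field_simp
          norm_num
        rw [this]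
        nlinarith
    linarith
  by_cases hex : ∃ i < n, |x - c i| ≤ ρ i / 8
  · left
    obtain ⟨i0, hi0, hx0⟩ := hex
    refine ⟨i0, hi0, hx0, ?_⟩
    have h0 := hρ i0 hi0
    have hl := hG.left i0 hi0
    have hr := hG.right i0 hi0
    rw [pow_succ] at hr
    have hx1 : 2 ^ (k + 2 * i0) ≤ x := by
      have := (abs_le.mp hx0).1
      linarith
    have hx2 : x ≤ 2 * 2 ^ (k + 2 * i0) := by
      have := (abs_le.mp hx0).2
      linarith
    have hsub : M ⊆ {i0} := by
      intro j hj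
      rw [hM, Finset.mem_filter] at hj
      obtain ⟨-, h1, h2⟩ := hj
      rw [Finset.mem_singleton]
      rcases lt_trichotomy j i0 with h | h | h
      · have := hmono j i0 h
        linarith
      · exact h
      · have := hmono i0 j h
        linarith
    have hTn : 0 ≤ T i0 := by
      obtain ⟨-, h2, -, -, -⟩ := hHMU (c i0 - ρ i0 / 16) (c i0 + ρ i0 / 16) (x + Complex.I) (by linarith) hz
      exact mul_nonneg h0.le h2
    have hMs : ∑ i ∈ M, T i ≤ ρ i0 := by
      have : ∑ i ∈ M, T i ≤ ∑ i ∈ ({i0} : Finset ℕ), T i := by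
        apply Finset.sum_le_sum_of_subset_of_nonneg hsub
        intro i hi _
        rw [Finset.mem_singleton] at hi
        rw [hi]; exact hTn
      rw [Finset.sum_singleton] at this
      exact this.trans (hany i0 hi0)
    linarith
  · right
    push Not at hex
    refine ⟨hex, ?_⟩
    have hMc : M.card ≤ 2 := by
      by_cases hne : M.Nonempty
      · have hsub : M ⊆ {M.min' hne, M.min' hne + 1} := by
          intro j hj
          rw [Finset.mem_insert, Finset.mem_singleton]
          have hle := Finset.min'_le M j hj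
          by_contra hcon
          push Not at hcon
          have hj2 : M.min' hne + 1 < j := by omega
          have hmin := (Finset.mem_filter.mp (Finset.min'_mem M hne)).2
          have hj' := (Finset.mem_filter.mp hj).2
          have m1 := hmono (M.min' hne) (M.min' hne + 1) (by omega)
          have m2 := hmono (M.min' hne + 1) j hj2
          have hK := SMQ_K k (M.min' hne)
          linarith [hj'.1, hmin.2]
        exact (Finset.card_le_card hsub).trans Finset.card_le_two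
      · rw [Finset.not_nonempty_iff_eq_empty] at hne
        rw [hne]; simp
    have hMs : ∑ i ∈ M, T i ≤ 32 := by
      have h1 : ∑ i ∈ M, T i ≤ ∑ _i ∈ M, (16 : ℝ) := by
        apply Finset.sum_le_sum
        intro i hi
        rw [hM, Finset.mem_filter, Finset.mem_range] at hi
        exact hmid i hi.1 (hex i hi.1)
      rw [Finset.sum_const, nsmul_eq_mul] at h1
      have h2 : (M.card : ℝ) ≤ 2 := by exact_mod_cast hMc
      linarith
    linarith

end Pool.Agent.FD
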